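import Pool.Agent.Helper22.NS.Geo
import Pool.Agent.Helper18.SB.E1
import Pool.Agent.Helper36.SB.E3

/-!
Packet NS HSUM (MP_b440f6_pr): the sum of the heights of the legs.
-/

open Finset

namespace Pool.Agent.Helper54.NS

open Pool.Agent.Helper98.Saw hiding iv
open Pool.Agent.Helper22.SB
open Pool.Agent.Helper22.NS
open Pool.Agent.Helper23.DEC (dir nleg hg ZG rj lsr lp2)

theorem tau_le {γ : ℕ → V} {n t K : ℕ} {up : Bool} {τ : ℕ → ℕ} (h : ZG γ n t K up τ) {i j : ℕ}
    (hij : i ≤ j) (hj : j ≤ K) : τ i ≤ τ j := by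
  induction j, hij using Nat.le_induction with
  | base => exact le_rfl
  | succ j _ ih => exact (ih (by omega)).trans (h.lt j (by omega)).le

theorem HSUM : HSUM_stmt := by
  intro γ n t K s M up τ S hP hZ hs hSk
  obtain ⟨-, -, hAdj, hrow, -⟩ := Helper18.SB.euc
  have hs0 : (0 : ℝ) < s := by exact_mod_cast hs
  have hStp : Stp γ 0 n := by
    intro u _ hu
    rw [norm_sub_rev]
    exact (hAdj _ _ (hP.1 u (Nat.zero_le u) hu)).le
  obtain ⟨hmono, hdist, -, -, hM, -, -⟩ := Helper36.SB.ctProp γ s 0 n M S hs0 hSk hStp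
  have hle : ∀ j ≤ K, τ j ≤ n := fun j hj => (tau_le hZ hj le_rfl).trans hZ.le
  have h1 : ∀ j < K, (hg γ τ j : ℝ) ≤
      (s + 1) * ((ct M S (τ (j + 1)) : ℝ) - ct M S (τ j)) + (2 * s + 2) := by
    intro j hj
    have h2 := hdist (τ j) (τ (j + 1)) (Nat.zero_le _) (hZ.lt j hj).le (hle (j + 1) hj)
    have h3 := hrow (γ (τ (j + 1))) (γ (τ j)) (hP.2.1 _ (Nat.zero_le _) (hle (j + 1) hj))
      (hP.2.1 _ (Nat.zero_le _) (hle j hj.le))
    have h4 : (hg γ τ j : ℝ) = |(((γ (τ (j + 1))) 2 - (γ (τ j)) 2 : ℤ) : ℝ)| + 1 := by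
      unfold hg
      push_cast
      rw [Nat.cast_natAbs]
      push_cast
      rfl
    have h5 : 0 ≤ ‖zc (γ (τ (j + 1))) - zc (γ (τ j))‖ := norm_nonneg _
    rw [h4]
    linarith
  calc ∑ j ∈ range K, (hg γ τ j : ℝ) ≤
        ∑ j ∈ range K, ((s + 1) * ((ct M S (τ (j + 1)) : ℝ) - ct M S (τ j)) + (2 * s + 2)) :=
        sum_le_sum fun j hj => h1 j (mem_range.1 hj)
    _ = (s + 1) * ((ct M S (τ K) : ℝ) - ct M S (τ 0)) + (2 * s + 2) * K := by
        rw [sum_add_distrib, ← mul_sum, sum_range_sub (fun j => (ct M S (τ j) : ℝ)), sum_const,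
          card_range, nsmul_eq_mul]
        ring
    _ ≤ (s + 1) * M + (2 * s + 2) * K := by
        have h6 : (ct M S (τ K) : ℝ) ≤ M := by
          have := hmono (τ K) n hZ.le
          rw [hM] at this
          exact_mod_cast this
        have h7 : (0 : ℝ) ≤ ct M S (τ 0) := by positivity
        have h8 : (s + 1 : ℝ) * ((ct M S (τ K) : ℝ) - ct M S (τ 0)) ≤ (s + 1) * M :=
          mul_le_mul_of_nonneg_left (by linarith) (by positivity)
        linarith

end Pool.Agent.Helper54.NS
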